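import Pool.Agent.Y527.ZA.Asm
import Pool.Agent.Y171.ZA.SURJ
import Pool.Agent.Y442.ZA.GAL
import Pool.Agent.Y442.ZA.EVAL
import Pool.Agent.Y777.ZA.VAN
import Pool.Agent.Y768.ZA.FORM
import Pool.Agent.Y41.ZA.FIX
import Pool.Agent.Y908.ZA.ARI
import Pool.Agent.Y908.ZA.OPS
import Pool.Agent.Y87.ZA.ABEL
set_option autoImplicit false

/-!
# The definable subsets of the ring of abelian algebraic integers

`Qab` is the subfield of `ℂ` generated by all roots of unity and `Zab` is its ring of integers. We
describe all subsets of `Zab` which are definable in the language of rings. Every element of `Zab`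
has a code: `dec c` is the value at `exp (2 π i / (n + 1))` of the polynomial with the list `l` of
coefficients, if `c` is the code of the pair of `n` and the code of `l`.

* A set `S` is definable without parameters iff it is invariant under all automorphisms of `Zab` and
  its set of codes is arithmetical.
* It is definable with parameters iff it is invariant under all automorphisms which fix some
  `exp (2 π i / m)` and its set of codes is arithmetical.
* The ring of integers of a subfield of `Qab` is definable (with or without parameters) iff its set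
  of codes is arithmetical.
* The set of real elements is definable without parameters.

Idea. The starting library defines the roots of unity and the integers. For a root of unity `ζ` and a
polynomial `f` with natural coefficients, `x = f(ζ)` iff for all naturals `p`, `a`: if the ideal
`(p, ζ - a)` is proper then so is `(p, ζ - a, x - f(a))`. This is a formula in the code of `f`, as
arithmetic is available, so one can quantify over codes; and a set is invariant iff with `f(ζ)` it
contains `f(ζ')` for all roots of unity `ζ'` of the same order. Conversely the ring operations on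
codes are arithmetical, because an integral polynomial `F` vanishes at `exp (2 π i / N)` iff `p`
divides `F(a)` whenever `a` has order `N` modulo the prime `p`.

The parts are due to helper171 (SURJ), helper442 (GAL, EVAL), helper777 (VAN), helper768 (FORM),
helper41 (FIX), helper908 (ARI, OPS), helper87 (ABEL) and helper527.
-/

namespace Pool.Agent.Results.MP_5347d0_lc.DefinableSets

open FirstOrder FirstOrder.Language
open Pool.Agent.H358R3 Pool.Agent.Y527.ZA

attribute [local instance] Df.strO

theorem result :
    -- every element has a code
    Function.Surjective dec ∧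
    -- the sets definable without parameters
    (∀ S : Set Zab, Set.Definable₁ (∅ : Set Zab) Language.ring S ↔
      (∀ σ : Zab ≃+* Zab, ∀ x ∈ S, σ x ∈ S) ∧ Arith {c | dec c ∈ S}) ∧
    -- the sets definable with parameters
    (∀ S : Set Zab, Set.Definable₁ (Set.univ : Set Zab) Language.ring S ↔
      (∃ (m : ℕ) (hm : m ≠ 0), ∀ σ : Zab ≃+* Zab, σ (zR m hm) = zR m hm → ∀ x ∈ S, σ x ∈ S) ∧
      Arith {c | dec c ∈ S}) ∧
    -- the rings of integers of the subfields
    (∀ F : IntermediateField ℚ Qab,
      (Set.Definable₁ (Set.univ : Set Zab) Language.ring {x : Zab | (x : Qab) ∈ F} ↔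
        Arith {c | (dec c : Qab) ∈ F}) ∧
      (Set.Definable₁ (∅ : Set Zab) Language.ring {x : Zab | (x : Qab) ∈ F} ↔
        Arith {c | (dec c : Qab) ∈ F})) ∧
    -- the real elements
    Set.Definable₁ (∅ : Set Zab) Language.ring {x : Zab | ((x : Qab) : ℂ).im = 0} := by
  have hS := Pool.Agent.Y171.ZA.h_SURJ
  have hF := Pool.Agent.Y768.ZA.h_FORM
  have hM := main hS Pool.Agent.Y442.ZA.h_GAL Pool.Agent.Y442.ZA.h_EVAL hF Pool.Agent.Y41.ZA.h_FIX
    Pool.Agent.Y41.ZA.h_FIX0 (Pool.Agent.Y908.ZA.h_OPS Pool.Agent.Y777.ZA.h_VAN)
    (Pool.Agent.Y908.ZA.h_ARI hF)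
  have hAB := Pool.Agent.Y87.ZA.h_ABEL
  refine ⟨hS, fun S => (hM S).1, fun S => (hM S).2, fun F => ⟨?_, ?_⟩,
    Df.definable_of_D (R := fun x : Zab => (inc x).im = 0) real_definable⟩
  · rw [(hM _).2]
    exact ⟨fun h => h.2, fun h => ⟨⟨1, one_ne_zero, fun σ _ x hx => hAB F σ x hx⟩, h⟩⟩
  · rw [(hM _).1]
    exact ⟨fun h => h.2, fun h => ⟨fun σ x hx => hAB F σ x hx, h⟩⟩

end Pool.Agent.Results.MP_5347d0_lc.DefinableSets
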